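import Pool.Agent.LibPD18.Proof

/-!
# MP_e2473a_co : girth forcing p-path degeneracy, an upper bound of the form of Q1

A graph of a minor-closed class of maximum average degree at most `d` (`d ≥ 3`) whose girth is at least
`(4 log_2 (d - 2) + 8) (p - 1)` is `p`-path degenerate.

Proof.  Suppress the vertices of degree 2 (keeping the lengths) in a minimal subgraph which is not `p`-path degenerate;
this gives a minor of minimum degree at least 3 and girth at least `4 k + 3`, where `2 ^ k > (4/3) (d - 2)`.  Choose
a random set `X` of vertices with probability `2 ^ (-k)`; the vertices at distance at most `k` from `X` are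
partitioned into cells around the elements of `X`; by the girth every cell is a tree and there is at most one edge
between two cells.  The graph `M` of the cells is a minor, and the expectation of `2 |E(M)| - d |X|` is positive.
-/

set_option autoImplicit false

namespace Pool.Agent.Results.MP_e2473a_co.GirthBound

open SimpleGraph PD18

theorem result (C : (V : Type) → SimpleGraph V → Prop) (hC : MinorClosed C)
    (d : ℝ) (hd : 3 ≤ d) (hmad : MadLE C d) (p : ℕ) (hp : 2 ≤ p)
    (V : Type) [Finite V] (G : SimpleGraph V) (hG : C V G)
    (hg : ∀ (a : V) (w : G.Walk a a), w.IsCycle →
      (4 * Real.logb 2 (d - 2) + 8) * ((p : ℝ) - 1) ≤ w.length) :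
    PathDegenerate p G :=
  girth_bound C hC d hd hmad p hp V G hG hg

end Pool.Agent.Results.MP_e2473a_co.GirthBound
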